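import Pool.Agent.W249.TCF.Idx
import Pool.Agent.W198.TC.Main

/-! Small gaps, in terms of the enumeration of the ordinates. -/

set_option autoImplicit false

open Complex Filter Topology Set

namespace W249.TCF

open SG (ord NZ zmult ZS)
open W200.HW (Ix mem_Ix)
open TC (ordT mu kk)

noncomputable def GG (a : ℝ) : ℝ := (53 / 60 - 79 / 600 * Real.pi ^ 2 * a ^ 2) ^ 2
noncomputable def DD (a : ℝ) : ℝ := 2 * GG a - 1037 / 1000
noncomputable def KK (a : ℝ) : ℝ := (151 / 1250) / (151 / 1250 + DD a ^ 2)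

lemma Qx_eq (a : ℝ) : TC.Qx (2 * Real.pi * a) = GG a := by
  unfold TC.Qx GG; ring

lemma vv_eq : TC.vv = 151 / 1250 := by unfold TC.vv; norm_num

lemma cond_eq (a : ℝ) : 53 / 60 - 79 / 2400 * (2 * Real.pi * a) ^ 2 =
    53 / 60 - 79 / 600 * Real.pi ^ 2 * a ^ 2 := by ring

lemma KK_le (a : ℝ) : KK a ≤ 1 := by
  unfold KK
  rw [div_le_one (by positivity)]
  linarith [sq_nonneg (DD a)]

lemma KK_nonneg (a : ℝ) : 0 ≤ KK a := by
  unfold KK; positivity

lemma cont_DD : Continuous DD := by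
  unfold DD GG; fun_prop

lemma cont_KK : Continuous KK := by
  unfold KK
  apply Continuous.div continuous_const
  · exact continuous_const.add (cont_DD.pow 2)
  · intro a
    have := sq_nonneg (DD a)
    linarith

lemma exists_a' (a ε : ℝ) (hx : 0 < 53 / 60 - 79 / 600 * Real.pi ^ 2 * a ^ 2)
    (hD : 1 / 8 ≤ DD a) (hε : 0 < ε) : ∃ a' : ℝ, a < a' ∧
    0 < 53 / 60 - 79 / 600 * Real.pi ^ 2 * a' ^ 2 ∧ TC.vv / TC.EE ≤ DD a' ∧ KK a' < KK a + ε := by
  have h1 : Continuous (fun a : ℝ => 53 / 60 - 79 / 600 * Real.pi ^ 2 * a ^ 2) := by fun_prop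
  have h2 : ∀ᶠ b in 𝓝 a, 0 < 53 / 60 - 79 / 600 * Real.pi ^ 2 * b ^ 2 :=
    h1.continuousAt.eventually (lt_mem_nhds hx)
  have h3 : TC.vv / TC.EE < DD a := by
    refine lt_of_lt_of_le ?_ hD
    unfold TC.vv TC.EE
    norm_num
  have h4 : ∀ᶠ b in 𝓝 a, TC.vv / TC.EE < DD b := cont_DD.continuousAt.eventually (lt_mem_nhds h3)
  have h5 : ∀ᶠ b in 𝓝 a, KK b < KK a + ε :=
    cont_KK.continuousAt.eventually (gt_mem_nhds (by linarith))
  have h6 : ∀ᶠ b in 𝓝[>] a, a < b := self_mem_nhdsWithin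
  have h7 := (h2.filter_mono (nhdsWithin_le_nhds (s := Ioi a))).and
    ((h4.filter_mono (nhdsWithin_le_nhds (s := Ioi a))).and
    ((h5.filter_mono (nhdsWithin_le_nhds (s := Ioi a))).and h6))
  obtain ⟨b, hb1, hb2, hb3, hb4⟩ := h7.exists
  exact ⟨b, hb4, hb1, hb2.le, hb3⟩

/-- neighbours are counted by `kk` -/
lemma nb_two (RH : RiemannHypothesis) {T r : ℝ} (hr : 0 ≤ r) {n m : ℕ} (hn : n ∈ Ix T)
    (hm : m ∈ Ix T) (hnm : m ≠ n) (h : |ord m - ord n| ≤ r) :
    2 ≤ kk (ordT T) mu r (ord n) := by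
  classical
  rw [kk_eq RH]
  have : ({n, m} : Finset ℕ) ⊆ (Ix T).filter (fun k => |ord k - ord n| ≤ r) := by
    intro k hk
    rw [Finset.mem_insert, Finset.mem_singleton] at hk
    rw [Finset.mem_filter]
    rcases hk with rfl | rfl
    · exact ⟨hn, by simpa using hr⟩
    · exact ⟨hm, h⟩
  have h2 := Finset.card_le_card this
  rwa [Finset.card_pair hnm.symm] at h2

lemma nb_three (RH : RiemannHypothesis) {T r : ℝ} (hr : 0 ≤ r) {n m l : ℕ} (hn : n ∈ Ix T)
    (hm : m ∈ Ix T) (hl : l ∈ Ix T) (hnm : n ≠ m) (hnl : n ≠ l) (hml : m ≠ l)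
    (h : |ord m - ord n| ≤ r) (h' : |ord l - ord n| ≤ r) :
    3 ≤ kk (ordT T) mu r (ord n) := by
  classical
  rw [kk_eq RH]
  have : ({n, m, l} : Finset ℕ) ⊆ (Ix T).filter (fun k => |ord k - ord n| ≤ r) := by
    intro k hk
    rw [Finset.mem_insert, Finset.mem_insert, Finset.mem_singleton] at hk
    rw [Finset.mem_filter]
    rcases hk with rfl | rfl | rfl
    · exact ⟨hn, by simpa using hr⟩
    · exact ⟨hm, h⟩
    · exact ⟨hl, h'⟩
  have h2 := Finset.card_le_card this
  rwa [Finset.card_eq_three.2 ⟨n, m, l, hnm, hnl, hml, rfl⟩] at h2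

lemma pair_count (RH : RiemannHypothesis) (N : ℕ) (r : ℝ) (hr : 0 ≤ r) (S : Finset ℕ)
    (hS : ∀ n ∈ S, 1 ≤ n ∧ n ≤ N ∧ ord (n + 1) - ord n ≤ r) :
    2 * S.card ≤ ∑ n ∈ Ix (ord (N + 1)), (kk (ordT (ord (N + 1))) mu r (ord n) - 1) := by
  classical
  set T := ord (N + 1) with hT
  have hI : ∀ n : ℕ, 1 ≤ n → n ≤ N + 1 → n ∈ Ix T := by
    intro n h1 h2
    rw [mem_Ix]
    exact ⟨h1, SG.ord_mono h1 h2⟩
  have hsub : S ⊆ Ix T := fun n hn => hI n (hS n hn).1 (by have := (hS n hn).2.1; omega)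
  set S' := S.image (fun n => n + 1) with hS'
  have hsub' : S' ⊆ Ix T := by
    intro n hn
    rw [hS', Finset.mem_image] at hn
    obtain ⟨m, hm, rfl⟩ := hn
    have := hS m hm
    exact hI _ (by omega) (by omega)
  have hcard' : S'.card = S.card :=
    Finset.card_image_of_injective S (fun a b h => by simpa using h)
  have habs : ∀ n ∈ S, |ord (n + 1) - ord n| ≤ r := by
    intro n hn
    rw [abs_of_nonneg (sub_nonneg.2 (SG.ord_mono (hS n hn).1 (by omega)))]
    exact (hS n hn).2.2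
  have e1 : ∀ U : Finset ℕ, U ⊆ Ix T → ∑ n ∈ Ix T, (if n ∈ U then 1 else 0) = U.card := by
    intro U hU
    rw [← Finset.card_filter, Finset.filter_mem_eq_inter, Finset.inter_eq_right.2 hU]
  have e2 : 2 * S.card = ∑ n ∈ Ix T, ((if n ∈ S then 1 else 0) + (if n ∈ S' then 1 else 0)) := by
    rw [Finset.sum_add_distrib, e1 S hsub, e1 S' hsub', hcard']
    ring
  rw [e2]
  apply Finset.sum_le_sum
  intro n hn
  by_cases h1 : n ∈ S <;> by_cases h2 : n ∈ S'
  · rw [if_pos h1, if_pos h2]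
    obtain ⟨m, hm, hmn⟩ := Finset.mem_image.1 h2
    have hm1 := hS m hm
    have hn1 := hS n h1
    have := nb_three RH hr hn (hI (n + 1) (by omega) (by omega)) (hI m (by omega) (by omega))
      (by omega) (by omega) (by omega) (habs n h1) (by
        rw [abs_sub_comm, ← hmn]; exact habs m hm)
    omega
  · rw [if_pos h1, if_neg h2]
    have hn1 := hS n h1
    have := nb_two RH hr hn (hI (n + 1) (by omega) (by omega)) (by omega) (habs n h1)
    omega
  · rw [if_neg h1, if_pos h2]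
    obtain ⟨m, hm, hmn⟩ := Finset.mem_image.1 h2
    have hm1 := hS m hm
    have := nb_two RH hr hn (hI m (by omega) (by omega)) (by omega) (by
        rw [abs_sub_comm, ← hmn]; exact habs m hm)
    omega
  · rw [if_neg h1, if_neg h2]
    omega

/-- the condition on an index -/
def Pn (a : ℝ) (n : ℕ) : Prop := (ord (n + 1) - ord n) * (Real.log (ord n) - 2) ≤ 2 * Real.pi * a

lemma asym1 (a a' : ℝ) (ha : 0 ≤ a) (haa : a < a') : ∀ᶠ T : ℝ in atTop,
    0 < Real.log T - Real.log (Real.log T) - 2 ∧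
    a * Real.log T ≤ a' * (Real.log T - Real.log (Real.log T) - 2) := by
  have ha' : 0 < a' := by linarith
  have hc : 0 < min ((a' - a) / a') (1 / 2) := lt_min (div_pos (by linarith) ha') (by norm_num)
  set c := min ((a' - a) / a') (1 / 2) with hcdef
  have h1 : ∀ᶠ u : ℝ in atTop, Real.log u + 2 ≤ c * u := by
    have h2 := (Real.isLittleO_log_id_atTop.def (show 0 < c / 2 by positivity))
    filter_upwards [h2, eventually_ge_atTop (4 / c), eventually_gt_atTop 0] with u hu hu2 hu0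
    rw [id, Real.norm_eq_abs, Real.norm_eq_abs, abs_of_pos hu0] at hu
    have h3 := (le_abs_self _).trans hu
    rw [div_le_iff₀ hc] at hu2
    linarith
  filter_upwards [Real.tendsto_log_atTop.eventually h1,
    Real.tendsto_log_atTop.eventually_gt_atTop 0] with T hT hT0
  have hc1 : c ≤ (a' - a) / a' := min_le_left _ _
  have hc2 : c ≤ 1 / 2 := min_le_right _ _
  rw [le_div_iff₀ ha'] at hc1
  constructor
  · nlinarith
  · nlinarith [mul_le_mul_of_nonneg_left hT ha'.le, mul_le_mul_of_nonneg_right hc1 hT0.le]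

lemma asym2 (L ε : ℝ) (hL : 0 < L) (hε : 0 < ε) : ∀ᶠ T : ℝ in atTop,
    L * Real.log T * (T / Real.log T + 1) + 1 ≤ ε * (T * Real.log T / (2 * Real.pi)) := by
  have hpi := Real.pi_pos
  filter_upwards [eventually_ge_atTop 3, Real.tendsto_log_atTop.eventually_ge_atTop
    ((2 * L + 1) * (2 * Real.pi) / ε), Real.tendsto_log_atTop.eventually_gt_atTop 0]
    with T hT hT2 hT0
  have h1 : Real.log T ≤ T := by
    have := Real.log_le_sub_one_of_pos (show 0 < T by linarith)
    linarith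
  rw [div_le_iff₀ hε] at hT2
  have h2 : L * Real.log T * (T / Real.log T + 1) = L * (T + Real.log T) := by
    field_simp
  rw [h2]
  have h3 : (2 * L + 1) * T ≤ ε * (T * Real.log T / (2 * Real.pi)) := by
    rw [← mul_div_assoc, le_div_iff₀ (by positivity)]
    nlinarith
  nlinarith

open Classical in
/-- **Small gaps.** -/
theorem small_gaps (RH : RiemannHypothesis) (a : ℝ) (ha : 0 ≤ a)
    (hx : 0 < 53 / 60 - 79 / 600 * Real.pi ^ 2 * a ^ 2) (hD : 1 / 8 ≤ DD a) (ε : ℝ)
    (hε : 0 < ε) : ∀ᶠ N : ℕ in atTop,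
    (((Finset.Icc 1 N).filter (fun n => Pn a n)).card : ℝ) ≤ (KK a / 2 + ε) * N ∧
    (((Finset.Icc 2 N).filter (fun n => Pn a (n - 1) ∨ Pn a n)).card : ℝ) ≤
      (KK a + ε) * N := by
  wlog hε1 : ε ≤ 1 generalizing ε with H
  · filter_upwards [H 1 one_pos le_rfl] with N hN
    have h1 : (KK a / 2 + 1) * N ≤ (KK a / 2 + ε) * N := by gcongr; linarith
    have h2 : (KK a + 1) * N ≤ (KK a + ε) * N := by gcongr; linarith
    exact ⟨hN.1.trans h1, hN.2.trans h2⟩
  have hpi := Real.pi_pos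
  obtain ⟨a', haa, hx', hD', hK'⟩ := exists_a' a (ε / 8) hx hD (by positivity)
  have ha' : 0 < a' := by linarith
  obtain ⟨T1, hT1⟩ := TC.close_pairs RH (2 * Real.pi * a') (by positivity)
    (by rw [cond_eq]; exact hx') (by rw [Qx_eq]; exact hD') (ε / 8) (by positivity)
  obtain ⟨T2, hT2⟩ := TC.clusters RH 2 (2 * Real.pi * a') (by positivity)
    (by rw [cond_eq]; exact hx') (by rw [Qx_eq]; exact_mod_cast hD') (ε / 8) (by positivity)
  obtain ⟨L, hL, hcr⟩ := NZ_crude RH
  have hlim : Tendsto (fun N : ℕ => ord (N + 1)) atTop atTop :=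
    SG.ord_tendsto.comp (tendsto_add_atTop_nat 1)
  filter_upwards [hlim.eventually (asym1 a a' ha haa), hlim.eventually (asym2 L (ε / 8) hL
    (by positivity)), hlim.eventually_ge_atTop (max T1 T2), hlim.eventually_ge_atTop 3,
    (Real.tendsto_log_atTop.comp hlim).eventually_ge_atTop 1, T_le (ε / 16) (by positivity)
    (by linarith)] with N hN1 hN2 hN3 hN4 hN5 hN6
  set T := ord (N + 1) with hT
  simp only [Function.comp] at hN5
  rw [← hT] at hN5
  have hlog : 0 < Real.log T := by linarith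
  have hTpos : 0 < T := by linarith
  set r := 2 * Real.pi * a' / Real.log T with hr
  have hr0 : 0 ≤ r := by positivity
  have hrl : r * Real.log T ≤ 2 * Real.pi * a' := by
    rw [hr, div_mul_cancel₀ _ hlog.ne']
  have hP := hT1 T ((le_max_left _ _).trans hN3) r hr0 hrl
  have hC := hT2 T ((le_max_right _ _).trans hN3) r hr0 hrl
  rw [vv_eq, Qx_eq] at hP hC
  have hEE : TC.EE = 1037 / 1000 := rfl
  rw [hEE] at hP hC
  have hPK : (151 / 1250 : ℝ) / (151 / 1250 + (2 * GG a' - 1037 / 1000) ^ 2) = KK a' := rfl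
  have hCK : (151 / 1250 : ℝ) / (151 / 1250 + (((2 : ℕ) : ℝ) * GG a' - 1037 / 1000) ^ 2) = KK a' := by
    unfold KK DD; norm_num
  rw [hPK] at hP
  rw [hCK, card_cluster RH] at hC
  set X := T * Real.log T / (2 * Real.pi) with hX
  have hX0 : 0 ≤ X := by positivity
  set b := T / Real.log T with hb
  have hb0 : 0 < b := by positivity
  have hbT : b ≤ T := by rw [hb, div_le_iff₀ hlog]; nlinarith
  have hNb := hcr T hN4 b hb0.le hbT
  have hsmall : (NZ b : ℝ) + 1 ≤ ε / 4 * N := by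
    have h1 : ε / 8 * X ≤ ε / 8 * ((1 + ε / 16) * N) := by gcongr
    have h2 : ε / 8 * ((1 + ε / 16) * N) ≤ ε / 4 * N := by
      have hN0 : (0 : ℝ) ≤ N := Nat.cast_nonneg N
      nlinarith [mul_nonneg hε.le hN0]
    linarith
  have hmain : X * (KK a' + ε / 8) ≤ (KK a + 3 / 8 * ε) * N := by
    have hk0 := KK_nonneg a'
    have hk1 := KK_le a'
    have h1 : X * (KK a' + ε / 8) ≤ ((1 + ε / 16) * N) * (KK a' + ε / 8) := by
      gcongr
    have h2 : (1 + ε / 16) * (KK a' + ε / 8) ≤ KK a + 3 / 8 * ε := by nlinarith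
    have hN0 : (0 : ℝ) ≤ N := Nat.cast_nonneg N
    calc X * (KK a' + ε / 8) ≤ ((1 + ε / 16) * N) * (KK a' + ε / 8) := h1
      _ = ((1 + ε / 16) * (KK a' + ε / 8)) * N := by ring
      _ ≤ _ := by gcongr
  -- closeness
  have hclose : ∀ n : ℕ, 1 ≤ n → b < ord n → Pn a n → ord (n + 1) - ord n ≤ r := by
    intro n hn hbn hPn
    have h0 : 0 ≤ ord (n + 1) - ord n := sub_nonneg.2 (SG.ord_mono hn (by omega))
    have h1 : Real.log T - Real.log (Real.log T) ≤ Real.log (ord n) := by
      rw [← Real.log_div hTpos.ne' hlog.ne']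
      exact Real.log_le_log hb0 hbn.le
    unfold Pn at hPn
    have h2 : (ord (n + 1) - ord n) * (Real.log T - Real.log (Real.log T) - 2) ≤
        2 * Real.pi * a := le_trans (by gcongr) hPn
    rw [← le_div_iff₀ hN1.1] at h2
    refine h2.trans ?_
    rw [hr, div_le_div_iff₀ hN1.1 hlog]
    calc 2 * Real.pi * a * Real.log T = 2 * Real.pi * (a * Real.log T) := by ring
      _ ≤ 2 * Real.pi * (a' * (Real.log T - Real.log (Real.log T) - 2)) :=
        mul_le_mul_of_nonneg_left hN1.2 (by positivity)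
      _ = 2 * Real.pi * a' * (Real.log T - Real.log (Real.log T) - 2) := by ring
  constructor
  · set S := (Finset.Icc 1 N).filter (fun n => Pn a n) with hS
    have hsplit := Finset.card_filter_add_card_filter_not (s := S) (fun n => b < ord n)
    have h1 : ((S.filter (fun n => ¬ b < ord n)).card : ℝ) ≤ NZ b := by
      rw [← W200.HW.card_Ix b]
      have : S.filter (fun n => ¬ b < ord n) ⊆ Ix b := by
        intro n hn
        rw [Finset.mem_filter, hS, Finset.mem_filter, Finset.mem_Icc] at hn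
        rw [mem_Ix]
        exact ⟨hn.1.1.1, not_lt.1 hn.2⟩
      exact_mod_cast Finset.card_le_card this
    have h2 := pair_count RH N r hr0 (S.filter (fun n => b < ord n)) (by
      intro n hn
      rw [Finset.mem_filter, hS, Finset.mem_filter, Finset.mem_Icc] at hn
      exact ⟨hn.1.1.1, hn.1.1.2, hclose n hn.1.1.1 hn.2 hn.1.2⟩)
    rw [← hT] at h2
    have h3 : (2 : ℝ) * ((S.filter (fun n => b < ord n)).card : ℝ) ≤
        ∑ n ∈ Ix T, ((kk (ordT T) mu r (ord n) - 1 : ℕ) : ℝ) := by exact_mod_cast h2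
    rw [← sum_ord RH T (fun g => ((kk (ordT T) mu r g - 1 : ℕ) : ℝ))] at h3
    have h4 := h3.trans hP
    have h5 : (S.card : ℝ) = ((S.filter (fun n => b < ord n)).card : ℝ) +
        ((S.filter (fun n => ¬ b < ord n)).card : ℝ) := by exact_mod_cast hsplit.symm
    rw [h5]
    have hN0 : (0 : ℝ) ≤ N := Nat.cast_nonneg N
    nlinarith [mul_nonneg hε.le hN0]
  · set S := (Finset.Icc 2 N).filter (fun n => Pn a (n - 1) ∨ Pn a n) with hS
    have hsub : S ⊆ Finset.Icc 1 (NZ b + 1) ∪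
        (Ix T).filter (fun n => 2 ≤ kk (ordT T) mu r (ord n)) := by
      intro n hn
      rw [hS, Finset.mem_filter, Finset.mem_Icc] at hn
      obtain ⟨⟨hn1, hn2⟩, hn3⟩ := hn
      rw [Finset.mem_union]
      rcases le_or_gt (ord (n - 1)) b with h1 | h1
      · left
        have := (SG.ord_le_iff (by omega) b).1 h1
        rw [Finset.mem_Icc]
        omega
      · right
        have hIn : n ∈ Ix T := by
          rw [mem_Ix]; exact ⟨by omega, SG.ord_mono (by omega) (by omega)⟩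
        have hm : n - 1 + 1 = n := by omega
        have hle : ord (n - 1) ≤ ord n := SG.ord_mono (by omega) (by omega)
        rw [Finset.mem_filter]
        refine ⟨hIn, ?_⟩
        rcases hn3 with h3 | h3
        · have h4 := hclose (n - 1) (by omega) h1 h3
          rw [hm] at h4
          refine nb_two RH hr0 hIn (m := n - 1) ?_ (by omega) ?_
          · rw [mem_Ix]; exact ⟨by omega, SG.ord_mono (by omega) (by omega)⟩
          · rw [abs_sub_comm, abs_of_nonneg (by linarith)]; exact h4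
        · have h4 := hclose n (by omega) (by linarith) h3
          refine nb_two RH hr0 hIn (m := n + 1) ?_ (by omega) ?_
          · rw [mem_Ix]; exact ⟨by omega, SG.ord_mono (by omega) (by omega)⟩
          · rw [abs_of_nonneg (sub_nonneg.2 (SG.ord_mono (by omega) (by omega)))]; exact h4
    have h1 := (Finset.card_le_card hsub).trans (Finset.card_union_le _ _)
    rw [Nat.card_Icc, Nat.add_sub_cancel] at h1
    have h2 : (S.card : ℝ) ≤ ((NZ b : ℝ) + 1) +
        (((Ix T).filter (fun n => 2 ≤ kk (ordT T) mu r (ord n))).card : ℝ) := by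
      exact_mod_cast h1
    have hN0 : (0 : ℝ) ≤ N := Nat.cast_nonneg N
    nlinarith [mul_nonneg hε.le hN0]

end W249.TCF
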