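import Pool.Agent.W376.TC.Glob
import Pool.Agent.W200.HW

/-! Passage between sums over ordinates and sums over indices. -/

set_option autoImplicit false

open Complex Filter Topology Set

namespace W249.TCF

open SG (ord NZ zmult ZS)
open W200.HW (Ix mem_Ix)
open TC (ordT mu kk)

lemma ord_mem {RH : RiemannHypothesis} {T : ℝ} {n : ℕ} (hn : n ∈ Ix T) : ord n ∈ ordT T := by
  have h := W200.HW.zero_at RH hn
  obtain ⟨h0, h1, h2, h3, h4⟩ := h
  unfold TC.ordT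
  rw [Finset.mem_image]
  refine ⟨1 / 2 + I * ord n, ?_, by simp⟩
  rw [TC.GlobAux.mem_Z0]
  exact ⟨h1, h2, h3, h4, h0⟩

lemma mem_ordT_iff {T g : ℝ} : g ∈ ordT T ↔ ∃ s ∈ ZS T, s.im = g := by
  unfold TC.ordT
  rw [Finset.mem_image]
  constructor
  · rintro ⟨s, hs, h⟩
    rw [TC.GlobAux.mem_Z0] at hs
    exact ⟨s, ⟨hs.2.2.2.2, hs.1, hs.2.1, hs.2.2.1, hs.2.2.2.1⟩, h⟩
  · rintro ⟨s, hs, h⟩
    obtain ⟨h0, h1, h2, h3, h4⟩ := hs
    exact ⟨s, by rw [TC.GlobAux.mem_Z0]; exact ⟨h1, h2, h3, h4, h0⟩, h⟩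

lemma fib (RH : RiemannHypothesis) {T g : ℝ} (hg : g ∈ ordT T) :
    ((Ix T).filter (fun n => ord n = g)).card = mu g := by
  obtain ⟨s, hs, rfl⟩ := mem_ordT_iff.1 hg
  rw [W200.HW.ord_fib RH hs]
  unfold TC.mu
  rw [TC.GlobAux.eq_half RH hs.2.1 hs.2.2.1 hs.1]
  rfl

lemma sum_ord (RH : RiemannHypothesis) (T : ℝ) (f : ℝ → ℝ) :
    ∑ g ∈ ordT T, (mu g : ℝ) * f g = ∑ n ∈ Ix T, f (ord n) := by
  rw [← Finset.sum_fiberwise_of_maps_to (fun n hn => ord_mem (RH := RH) hn)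
    (fun n => f (ord n))]
  apply Finset.sum_congr rfl
  intro g hg
  rw [← fib RH hg, ← nsmul_eq_mul, ← Finset.sum_const]
  apply Finset.sum_congr rfl
  intro n hn
  rw [(Finset.mem_filter.1 hn).2]

lemma kk_eq (RH : RiemannHypothesis) (T r g : ℝ) :
    kk (ordT T) mu r g = ((Ix T).filter (fun m => |ord m - g| ≤ r)).card := by
  unfold TC.kk
  rw [Finset.card_eq_sum_card_fiberwise (f := ord) (t := (ordT T).filter (fun g' => |g' - g| ≤ r))]
  · apply Finset.sum_congr rfl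
    intro g' hg'
    rw [Finset.mem_filter] at hg'
    rw [← fib RH hg'.1, Finset.filter_filter]
    congr 1
    ext n
    simp only [Finset.mem_filter]
    constructor
    · rintro ⟨h1, h2⟩
      exact ⟨h1, by rw [h2]; exact hg'.2, h2⟩
    · rintro ⟨h1, _, h2⟩
      exact ⟨h1, h2⟩
  · intro n hn
    have hn' := Finset.mem_filter.1 (Finset.mem_coe.1 hn)
    exact Finset.mem_coe.2 (Finset.mem_filter.2 ⟨ord_mem (RH := RH) hn'.1, hn'.2⟩)

/-- cardinality form of the sum over clusters -/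
lemma card_cluster (RH : RiemannHypothesis) (T r : ℝ) (j : ℕ) :
    ∑ g ∈ (ordT T).filter (fun g => j ≤ kk (ordT T) mu r g), (mu g : ℝ) =
      (((Ix T).filter (fun n => j ≤ kk (ordT T) mu r (ord n))).card : ℝ) := by
  rw [Finset.sum_filter, Finset.card_filter]
  push_cast
  rw [← sum_ord RH T (fun g => if j ≤ kk (ordT T) mu r g then 1 else 0)]
  apply Finset.sum_congr rfl
  intro g _
  split_ifs <;> simp

/-- crude bound -/
lemma NZ_crude (RH : RiemannHypothesis) : ∃ L : ℝ, 0 < L ∧ ∀ T : ℝ, 3 ≤ T → ∀ b : ℝ, 0 ≤ b →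
    b ≤ T → (NZ b : ℝ) ≤ L * Real.log T * (b + 1) := by
  obtain ⟨L, hL, h⟩ := TC.GlobAux.loc RH
  refine ⟨L, hL, fun T hT b hb hbT => ?_⟩
  have h1 := TC.GlobAux.cnt (h T hT) 0 b hb
  have h2 : ∑ g ∈ (ordT T).filter (fun g => 0 < g ∧ g ≤ b), (mu g : ℝ) =
      (NZ b : ℝ) := by
    rw [Finset.sum_filter, ← W200.HW.card_Ix b]
    have h3 := sum_ord RH T (fun g => if 0 < g ∧ g ≤ b then 1 else 0)
    have h4 : ∑ g ∈ ordT T, (if 0 < g ∧ g ≤ b then (mu g : ℝ) else 0) =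
        ∑ g ∈ ordT T, (mu g : ℝ) * (if 0 < g ∧ g ≤ b then 1 else 0) := by
      apply Finset.sum_congr rfl
      intro g _
      split_ifs <;> simp
    rw [h4, h3, ← Finset.sum_filter, Finset.sum_const, nsmul_eq_mul, mul_one]
    congr 2
    ext n
    rw [Finset.mem_filter, mem_Ix, mem_Ix]
    constructor
    · rintro ⟨⟨a1, _⟩, _, a4⟩
      exact ⟨a1, a4⟩
    · rintro ⟨a1, a2⟩
      exact ⟨⟨a1, a2.trans hbT⟩, SG.ord_pos a1, a2⟩
  rw [h2] at h1
  rwa [sub_zero] at h1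

/-- `T log T / 2π ≤ (1 + ε) N` for `T = ord (N + 1)` -/
lemma T_le (ε : ℝ) (hε : 0 < ε) (hε1 : ε ≤ 1) : ∀ᶠ N : ℕ in atTop,
    ord (N + 1) * Real.log (ord (N + 1)) / (2 * Real.pi) ≤ (1 + ε) * N := by
  obtain ⟨T0, hT0⟩ := W200.HW.NZ_lower (ε / 2) (by positivity)
  have hlim : Tendsto (fun N : ℕ => ord (N + 1)) atTop atTop :=
    SG.ord_tendsto.comp (tendsto_add_atTop_nat 1)
  filter_upwards [hlim.eventually_gt_atTop (max T0 1)] with N hN
  set T := ord (N + 1) with hT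
  have hT1 : 1 < T := lt_of_le_of_lt (le_max_right _ _) hN
  have hc : ContinuousAt (fun t : ℝ => (1 - ε / 2) * (t / (2 * Real.pi) * Real.log t)) T := by
    apply ContinuousAt.mul continuousAt_const
    apply ContinuousAt.mul
    · exact continuousAt_id.div_const _
    · exact Real.continuousAt_log (by linarith)
  have h1 : Tendsto (fun t : ℝ => (1 - ε / 2) * (t / (2 * Real.pi) * Real.log t)) (𝓝[<] T)
      (𝓝 ((1 - ε / 2) * (T / (2 * Real.pi) * Real.log T))) :=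
    hc.tendsto.mono_left nhdsWithin_le_nhds
  have h2 : (1 - ε / 2) * (T / (2 * Real.pi) * Real.log T) ≤ N := by
    refine le_of_tendsto h1 ?_
    have h3 : ∀ᶠ t in 𝓝[<] T, T0 < t :=
      nhdsWithin_le_nhds (Ioi_mem_nhds (lt_of_le_of_lt (le_max_left _ _) hN))
    filter_upwards [h3, self_mem_nhdsWithin] with t ht1 ht2
    refine (hT0 t ht1.le).trans ?_
    have h4 : ¬ N + 1 ≤ NZ t := by
      intro h5
      have := (SG.ord_le_iff (by omega) t).2 h5
      exact absurd (lt_of_lt_of_le ht2 this) (lt_irrefl _)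
    exact_mod_cast (by omega : NZ t ≤ N)
  have hX : 0 ≤ T * Real.log T / (2 * Real.pi) := by
    have := Real.log_pos hT1
    have := Real.pi_pos
    positivity
  have h6 : T / (2 * Real.pi) * Real.log T = T * Real.log T / (2 * Real.pi) := by ring
  rw [h6] at h2
  set X := T * Real.log T / (2 * Real.pi)
  have h7 : X ≤ (1 + ε) * ((1 - ε / 2) * X) := by nlinarith [mul_nonneg hX (mul_nonneg hε.le (sub_nonneg.2 hε1))]
  calc X ≤ (1 + ε) * ((1 - ε / 2) * X) := h7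
    _ ≤ (1 + ε) * N := by gcongr

end W249.TCF
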